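import Pool.Agent.TH49.Spl.Defs

set_option autoImplicit false

/-! Random request sequences and splay trees: statements. -/

namespace Pool.Agent.Y395.SP

open Pool.Agent.H581R2.Splay Pool.Agent.TH49.Spl

/-- A tree with a marked top part: the nodes are marked, the holes contain the subtrees which hang
below the marked nodes. -/
inductive Ctx : Type
  | hole (t : Tr) : Ctx
  | node (a : ℕ) (l r : Ctx) : Ctx

/-- the tree -/
def erase : Ctx → Tr
  | .hole t => t
  | .node a l r => Tr.node a (erase l) (erase r)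

/-- the number of marked nodes -/
def msize : Ctx → ℕ
  | .hole _ => 0
  | .node _ l r => msize l + msize r + 1

/-- marked keys and hanging subtrees in symmetric order -/
def fl : Ctx → List (Tr ⊕ ℕ)
  | .hole t => [Sum.inl t]
  | .node a l r => fl l ++ Sum.inr a :: fl r

/-- `Ref D C`: the same tree, in `C` more nodes are marked -/
inductive Ref : Ctx → Ctx → Prop
  | hole (C : Ctx) : Ref (.hole (erase C)) C
  | node (a : ℕ) (l r l' r' : Ctx) : Ref l l' → Ref r r' → Ref (.node a l r) (.node a l' r')

/-- `Sim D' D s`: the same marked part; the hanging subtrees of `D` arise from those of `D'` by `s`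
rotations in all. -/
inductive Sim : Ctx → Ctx → ℕ → Prop
  | hole (t t' : Tr) (s : ℕ) : RotN s t t' → Sim (.hole t) (.hole t') s
  | node (a : ℕ) (l l' r r' : Ctx) (s s' : ℕ) : Sim l l' s → Sim r r' s' →
      Sim (.node a l r) (.node a l' r') (s + s')

/-- Lazy executions: before each request a top part with at most `q` nodes is rearranged, the
requested key is in this part, and `q` is the cost. -/
inductive Lazy : Tr → List ℕ → ℕ → Prop
  | nil (K : Tr) : Lazy K [] 0
  | cons (C C' : Ctx) (x : ℕ) (X : List ℕ) (q w : ℕ) : fl C = fl C' → msize C ≤ q →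
      Sum.inr x ∈ fl C → Lazy (erase C') X w → Lazy (erase C) (x :: X) (q + w)

/-- SP-PULL -/
def SPull : Prop := ∀ (s : ℕ) (K V : Tr), RotN s K V → ∀ D : Ctx, erase D = V →
  ∃ r : ℕ, r ≤ s ∧ ∃ C C' D' : Ctx, erase C = K ∧ fl C = fl C' ∧ msize C ≤ msize D + r ∧
    Ref D' C' ∧ Sim D' D (s - r)

/-- SP-SIM -/
def SSim : Prop := ∀ (X : List ℕ) (s c : ℕ) (K V : Tr), IsBST V → RotN s K V → Exec V X c →
  (∀ x ∈ X, x ∈ keys V) → ∃ w ≤ c + s, Lazy K X w

/-- SP-CODE, part 1: the request sequences of given length with a given initial tree have binary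
codes of length at most nine times the cost. -/
def SCode1 : Prop := ∀ (m : ℕ) (K : Tr), ∃ f : List ℕ → List Bool,
  (∀ X w, X.length = m → Lazy K X w → (f X).length ≤ 9 * w) ∧
  Set.InjOn f {X | X.length = m ∧ ∃ w, Lazy K X w}

/-- SP-CODE, part 2: the same for all initial trees with the keys `Ks`. -/
def SCode2 : Prop := ∀ (m : ℕ) (Ks : List ℕ), ∃ f : List ℕ → List Bool,
  (∀ X K w, X.length = m → keys K = Ks → Lazy K X w →
    (f X).length ≤ 9 * w + 2 * Ks.length + 1) ∧
  Set.InjOn f {X | X.length = m ∧ ∃ K w, keys K = Ks ∧ Lazy K X w}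

/-- the least cost of an execution for the requests `X` with the initial tree `T` -/
noncomputable def opt (T : Tr) (X : List ℕ) : ℕ := sInf {c : ℕ | Exec T X c}

/-- the request sequences of length `m` with keys in `K` -/
def seqs (K : Finset ℕ) (m : ℕ) : Finset (Fin m → ℕ) := Fintype.piFinset fun _ => K

/-- SP-KRAFT1 -/
def SKraft1 : Prop := ∀ (m : ℕ) (T : Tr), IsBST T →
  ∑ X ∈ seqs (keys T).toFinset m, (1 / 2 : ℝ) ^ (10 * opt T (List.ofFn X) + 2) ≤ 1

/-- SP-KRAFT2 -/
def SKraft2 : Prop := ∀ (m : ℕ) (Ks : List ℕ), Ks.Pairwise (· < ·) →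
  ∑ X ∈ seqs Ks.toFinset m,
    (1 / 2 : ℝ) ^ (10 * optAny Ks (List.ofFn X) + 2 * Ks.length + 3) ≤ 1

/-- `ws h x`: the number of distinct keys requested since the previous request of `x` (since the
start if there is none), where `h` is the list of the requests so far, the most recent one first. -/
def ws (h : List ℕ) (x : ℕ) : ℕ := ((h.takeWhile fun y => decide (y ≠ x)).toFinset).card

/-- the sum of `log₂ (ws + 1)` over the requests `X` after the history `h` -/
noncomputable def wsum : List ℕ → List ℕ → ℝ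
  | _, [] => 0
  | h, x :: X => Real.logb 2 (ws h x + 1) + wsum (x :: h) X

/-- SP-WS: the working set bound -/
def SWs : Prop := ∀ (T : Tr) (X : List ℕ), IsBST T → T ≠ Tr.nil → (∀ x ∈ X, x ∈ keys T) →
  (costSplay T X : ℝ) ≤ 8 * X.length + 6 * wsum [] X +
    8 * ((keys T).length * Real.logb 2 (keys T).length)

end Pool.Agent.Y395.SP
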