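import Pool.Agent.Y395.SP.Prob
import Pool.Agent.Y562.SP.PULL
import Pool.Agent.Y388.SP.SIM
import Pool.Agent.Y532.SP.CODE
import Pool.Agent.Y38.SP.KRAFT
import Pool.Agent.Y232.SP.WS

set_option autoImplicit false

/-! Splay trees on random request sequences: assembly. -/

namespace Pool.Agent.Y395.SP

open Pool.Agent.H581R2.Splay Pool.Agent.TH49.Spl Tr

theorem sim_holds : SSim := Pool.Agent.Y388.SP.main Pool.Agent.Y562.SP.PULL.main

theorem kraft1_holds : SKraft1 := Pool.Agent.Y38.SP.KRAFT.kraft1 sim_holds Pool.Agent.Y532.SP.code1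

theorem kraft2_holds : SKraft2 := Pool.Agent.Y38.SP.KRAFT.kraft2 sim_holds Pool.Agent.Y532.SP.code2

theorem ws_holds : SWs := Pool.Agent.Y232.SP.WS.main

end Pool.Agent.Y395.SP
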