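import Pool.Agent.Y395.SP.Stm
import Pool.Agent.Y578.Spl.Since

set_option autoImplicit false

/-! Random request sequences and splay trees: the probabilistic part. -/

namespace Pool.Agent.Y395.SP

open Pool.Agent.H581R2.Splay Pool.Agent.TH49.Spl Pool.Agent.Y578.Spl

/-- `law π h X`: the probability that the next requests are `X` when the requests so far are `h`
(the most recent one first), if `π h x` is the conditional probability of the request `x` after
the history `h`. -/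
def law (π : List ℕ → ℕ → ℝ) : List ℕ → List ℕ → ℝ
  | _, [] => 1
  | h, x :: X => π h x * law π (x :: h) X

/-- the greatest depth of `x` in the reference trees since its last request (`τ h` is the tree after
the history `h`) -/
def rd (τ : List ℕ → Tr) (x : ℕ) : List ℕ → ℕ
  | [] => dep x (τ [])
  | y :: h => if y = x then dep x (τ (y :: h)) else max (dep x (τ (y :: h))) (rd τ x h)

/-- the sum of the numbers `rd` over the requests `X` after the history `h` -/
def rsum (τ : List ℕ → Tr) : List ℕ → List ℕ → ℕ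
  | _, [] => 0
  | h, x :: X => rd τ x h + rsum τ (x :: h) X

theorem law_nonneg {π : List ℕ → ℕ → ℝ} (h0 : ∀ h x, 0 ≤ π h x) (X : List ℕ) :
    ∀ h, 0 ≤ law π h X := by
  induction X with
  | nil => intro h; simp [law]
  | cons x X ih => intro h; exact mul_nonneg (h0 h x) (ih _)

/-- general form: if `π h x ≤ A 2^(-δ g h x)` then `law ≤ A^m 2^(-δ Σ g)` -/
def gsum (g : List ℕ → ℕ → ℝ) : List ℕ → List ℕ → ℝ
  | _, [] => 0
  | h, x :: X => g h x + gsum g (x :: h) X

theorem law_le {π : List ℕ → ℕ → ℝ} (h0 : ∀ h x, 0 ≤ π h x) {K : Finset ℕ} {A δ : ℝ} (hA : 0 ≤ A)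
    {g : List ℕ → ℕ → ℝ} (hg : ∀ h, ∀ x ∈ K, π h x ≤ A * (2 : ℝ) ^ (-(δ * g h x))) (X : List ℕ) :
    ∀ h, (∀ x ∈ X, x ∈ K) → law π h X ≤ A ^ X.length * (2 : ℝ) ^ (-(δ * gsum g h X)) := by
  induction X with
  | nil => intro h _; simp [law, gsum]
  | cons x X ih =>
    intro h hX
    have h1 := hg h x (hX x (by simp))
    have h2 := ih (x :: h) (fun y hy => hX y (by simp [hy]))
    simp only [law, gsum, List.length_cons]
    calc π h x * law π (x :: h) X
        ≤ (A * (2 : ℝ) ^ (-(δ * g h x))) * (A ^ X.length * (2 : ℝ) ^ (-(δ * gsum g (x :: h) X))) :=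
          mul_le_mul h1 h2 (law_nonneg h0 X _) (by positivity)
      _ = A ^ (X.length + 1) * ((2 : ℝ) ^ (-(δ * g h x)) * (2 : ℝ) ^ (-(δ * gsum g (x :: h) X))) := by
          ring
      _ = _ := by
          rw [← Real.rpow_add (by norm_num)]
          congr 2
          ring

/-- the logarithmic form -/
theorem log_law {π : List ℕ → ℕ → ℝ} (h0 : ∀ h x, 0 ≤ π h x) {K : Finset ℕ} {A δ : ℝ} (hA : 1 ≤ A)
    {g : List ℕ → ℕ → ℝ} (hg : ∀ h, ∀ x ∈ K, π h x ≤ A * (2 : ℝ) ^ (-(δ * g h x))) {X : List ℕ}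
    (hX : ∀ x ∈ X, x ∈ K) {u : ℕ} (hu : (1 / 2 : ℝ) ^ u ≤ law π [] X) :
    δ * gsum g [] X ≤ u + X.length * Real.logb 2 A := by
  have h1 := law_le h0 (by linarith : (0:ℝ) ≤ A) hg X [] hX
  have h2 : (1 / 2 : ℝ) ^ u ≤ A ^ X.length * (2 : ℝ) ^ (-(δ * gsum g [] X)) := hu.trans h1
  have h3 := Real.logb_le_logb_of_le (b := 2) (by norm_num) (by positivity) h2
  have hA0 : (0 : ℝ) < A := by linarith
  rw [Real.logb_mul (by positivity) (by positivity), Real.logb_rpow (by norm_num) (by norm_num),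
    Real.logb_pow, Real.logb_pow] at h3
  have e : Real.logb 2 (1 / 2 : ℝ) = -1 := by
    rw [one_div, Real.logb_inv, Real.logb_self_eq_one (by norm_num)]
  rw [e] at h3
  linarith

/-- Markov's inequality in the form used here: sequences whose probability is much smaller than a
summable weight are unlikely. -/
theorem markov {m : ℕ} (K : Finset ℕ) (μ : (Fin m → ℕ) → ℝ) (e : (Fin m → ℕ) → ℕ)
    (P : (Fin m → ℕ) → Prop) [DecidablePred P]
    (hk : ∑ X ∈ seqs K m, (1 / 2 : ℝ) ^ e X ≤ 1)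
    (hP : ∀ X ∈ seqs K m, P X → μ X ≤ (1 / 2 : ℝ) ^ (e X + m)) :
    ∑ X ∈ (seqs K m).filter P, μ X ≤ (1 / 2 : ℝ) ^ m := by
  calc ∑ X ∈ (seqs K m).filter P, μ X
      ≤ ∑ X ∈ (seqs K m).filter P, (1 / 2 : ℝ) ^ m * (1 / 2 : ℝ) ^ e X := by
        refine Finset.sum_le_sum fun X hX => ?_
        rw [Finset.mem_filter] at hX
        refine (hP X hX.1 hX.2).trans (le_of_eq ?_)
        rw [pow_add]; ring
    _ ≤ ∑ X ∈ seqs K m, (1 / 2 : ℝ) ^ m * (1 / 2 : ℝ) ^ e X :=
        Finset.sum_le_sum_of_subset_of_nonneg (Finset.filter_subset _ _) fun _ _ _ => by positivity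
    _ = (1 / 2 : ℝ) ^ m * ∑ X ∈ seqs K m, (1 / 2 : ℝ) ^ e X := by rw [Finset.mul_sum]
    _ ≤ (1 / 2 : ℝ) ^ m * 1 := mul_le_mul_of_nonneg_left hk (by positivity)
    _ = _ := mul_one _

theorem exec_len {T : Tr} {X : List ℕ} {c : ℕ} (h : Exec T X c) : X.length ≤ c := by
  induction h with
  | nil T => simp
  | cons T T' x Y e c _ _ ih => simp only [List.length_cons]; omega

theorem exec_exists (T : Tr) (X : List ℕ) : ∃ c, Exec T X c := by
  induction X with
  | nil => exact ⟨0, Exec.nil T⟩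
  | cons x X ih =>
    obtain ⟨c, hc⟩ := ih
    exact ⟨_, Exec.cons T T x X 0 c (RotN.refl T) hc⟩

theorem len_opt (T : Tr) (X : List ℕ) : X.length ≤ opt T X := by
  have h : opt T X ∈ {c : ℕ | Exec T X c} := Nat.sInf_mem (exec_exists T X)
  exact exec_len h

theorem len_optAny {T : Tr} (X : List ℕ) : X.length ≤ optAny (keys T) X := by
  obtain ⟨c, hc⟩ := exec_exists T X
  have h : optAny (keys T) X ∈ {c : ℕ | ∃ T' : Tr, keys T' = keys T ∧ Exec T' X c} :=
    Nat.sInf_mem ⟨c, T, rfl, hc⟩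
  obtain ⟨T', -, h'⟩ := h
  exact exec_len h'

theorem gsum_ws (X : List ℕ) : ∀ h, gsum (fun h x => Real.logb 2 (ws h x + 1)) h X = wsum h X := by
  induction X with
  | nil => intro h; simp [gsum, wsum]
  | cons x X ih => intro h; simp only [gsum, wsum, ih]

theorem gsum_rd (τ : List ℕ → Tr) (X : List ℕ) :
    ∀ h, gsum (fun h x => (rd τ x h : ℝ)) h X = rsum τ h X := by
  induction X with
  | nil => intro h; simp [gsum, rsum]
  | cons x X ih => intro h; simp only [gsum, rsum, ih]; push_cast; ring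

/-- Part 1. -/
theorem part1 (hK : SKraft2) (hW : SWs) (T : Tr) (hT : IsBST T) (hn : T ≠ Tr.nil)
    (π : List ℕ → ℕ → ℝ) (h0 : ∀ h x, 0 ≤ π h x) (A δ : ℝ) (hA : 1 ≤ A) (hδ : 0 < δ) (hδ1 : δ ≤ 1)
    (hπ : ∀ h, ∀ x ∈ keys T, π h x ≤ A * ((ws h x : ℝ) + 1) ^ (-δ)) (m : ℕ) :
    ∑ X ∈ (seqs (keys T).toFinset m).filter (fun X =>
      ((74 + 6 * Real.logb 2 A) * (optAny (keys T) (List.ofFn X) : ℝ) +
        30 * ((keys T).length * Real.logb 2 (2 * (keys T).length))) / δ <
          costSplay T (List.ofFn X)), law π [] (List.ofFn X) ≤ (1 / 2 : ℝ) ^ m := by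
  classical
  refine markov (keys T).toFinset _
    (fun X => 10 * optAny (keys T) (List.ofFn X) + 2 * (keys T).length + 3) _ (hK m (keys T) hT) ?_
  intro X hX hbad
  by_contra hcon
  push Not at hcon
  refine absurd hbad (not_lt.mpr ?_)
  have hXK : ∀ x ∈ List.ofFn X, x ∈ (keys T).toFinset := by
    intro x hx
    rw [List.mem_ofFn] at hx
    obtain ⟨i, rfl⟩ := hx
    exact (Fintype.mem_piFinset.mp hX) i
  have hXK' : ∀ x ∈ List.ofFn X, x ∈ keys T := fun x hx => List.mem_toFinset.mp (hXK x hx)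
  have hlen : (List.ofFn X).length = m := by simp
  have h1 := log_law (K := (keys T).toFinset) (g := fun h x => Real.logb 2 ((ws h x : ℝ) + 1)) h0 hA
    (δ := δ) (by
      intro h x hx
      refine (hπ h x (List.mem_toFinset.mp hx)).trans (le_of_eq ?_)
      congr 1
      have hp : (0 : ℝ) < (ws h x : ℝ) + 1 := by positivity
      rw [show -(δ * Real.logb 2 ((ws h x : ℝ) + 1)) = Real.logb 2 ((ws h x : ℝ) + 1) * (-δ) by ring,
        Real.rpow_mul (by norm_num), Real.rpow_logb (by norm_num) (by norm_num) hp]) hXK hcon.le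
  rw [gsum_ws, hlen] at h1
  have h2 := hW T (List.ofFn X) hT hn hXK'
  rw [hlen] at h2
  have h3 : m ≤ optAny (keys T) (List.ofFn X) := by
    have := len_optAny (T := T) (List.ofFn X); rwa [hlen] at this
  set o : ℝ := (optAny (keys T) (List.ofFn X) : ℝ) with ho
  have h3' : (m : ℝ) ≤ o := by rw [ho]; exact_mod_cast h3
  have hL : 0 ≤ Real.logb 2 A := Real.logb_nonneg (by norm_num) hA
  push_cast at h1
  rw [← ho] at h1
  set n : ℝ := ((keys T).length : ℝ) with hnn
  have hn1 : (1 : ℝ) ≤ n := by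
    rw [hnn]
    have : 1 ≤ (keys T).length := by
      cases hTc : T with
      | nil => exact absurd hTc hn
      | node a l r => simp only [keys, List.length_append, List.length_cons]; omega
    exact_mod_cast this
  have hlg : Real.logb 2 (2 * n) = 1 + Real.logb 2 n := by
    rw [Real.logb_mul (by norm_num) (by linarith), Real.logb_self_eq_one (by norm_num)]
  have hlg0 : 0 ≤ Real.logb 2 n := Real.logb_nonneg (by norm_num) hn1
  rw [hlg]
  rw [le_div_iff₀ hδ]
  have h4 : δ * wsum [] (List.ofFn X) ≤ 11 * o + 2 * n + 3 + o * Real.logb 2 A := by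
    have : (m : ℝ) * Real.logb 2 A ≤ o * Real.logb 2 A := mul_le_mul_of_nonneg_right h3' hL
    linarith
  have h5 : (costSplay T (List.ofFn X) : ℝ) * δ ≤
      (8 * m + 6 * wsum [] (List.ofFn X) + 8 * (n * Real.logb 2 n)) * δ :=
    mul_le_mul_of_nonneg_right h2 hδ.le
  have h6 : (8 * (m : ℝ) + 8 * (n * Real.logb 2 n)) * δ ≤ 8 * o + 8 * (n * Real.logb 2 n) := by
    have hq : 0 ≤ 8 * (m : ℝ) + 8 * (n * Real.logb 2 n) := by positivity
    calc (8 * (m : ℝ) + 8 * (n * Real.logb 2 n)) * δ ≤ (8 * (m : ℝ) + 8 * (n * Real.logb 2 n)) * 1 :=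
          mul_le_mul_of_nonneg_left hδ1 hq
      _ ≤ _ := by linarith
  nlinarith [mul_nonneg (by linarith : (0:ℝ) ≤ n) hlg0]

theorem dep_rd (τ : List ℕ → Tr) (a : ℕ) (h : List ℕ) : dep a (τ h) ≤ rd τ a h := by
  cases h with
  | nil => simp [rd]
  | cons y h => simp only [rd]; split_ifs <;> simp

theorem rd_mono (τ : List ℕ → Tr) {a x : ℕ} (hax : a ≠ x) (h : List ℕ) :
    rd τ a h ≤ rd τ a (x :: h) := by
  simp only [rd]
  rw [if_neg (fun h => hax h.symm)]
  exact le_max_right _ _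

theorem lev_rd {K : List ℕ} {τ : List ℕ → Tr} (hk : ∀ h, keys (τ h) = K) (X : List ℕ) :
    ∀ h, ∃ s, Lev K (fun a => rd τ a h) X s ∧
      (s.map fun d => 7 + 15 * d).sum = 7 * X.length + 15 * rsum τ h X := by
  induction X with
  | nil => intro h; exact ⟨[], Lev.nil _, by simp [rsum]⟩
  | cons x X ih =>
    intro h
    obtain ⟨s, h1, h2⟩ := ih (x :: h)
    refine ⟨rd τ x h :: s, ?_, ?_⟩
    · exact Lev.cons _ (fun a => rd τ a (x :: h)) (τ h) x X s (hk h) (fun a _ => dep_rd τ a h)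
        (fun a ha => rd_mono τ ha h) h1
    · simp only [List.map_cons, List.sum_cons, h2, rsum, List.length_cons]; ring

/-- Part 2. -/
theorem part2 (hK : SKraft1) (T : Tr) (hT : IsBST T)
    (π : List ℕ → ℕ → ℝ) (h0 : ∀ h x, 0 ≤ π h x) (A δ : ℝ) (hA : 1 ≤ A) (hδ : 0 < δ) (hδ1 : δ ≤ 1)
    (τ : List ℕ → Tr) (hτ : τ [] = T) (hk : ∀ h, keys (τ h) = keys T)
    (hπ : ∀ h, ∀ x ∈ keys T, π h x ≤ A * (2 : ℝ) ^ (-(δ * rd τ x h))) (m : ℕ) (hm : 1 ≤ m) :
    ∑ X ∈ (seqs (keys T).toFinset m).filter (fun X =>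
      ((202 + 15 * Real.logb 2 A) / δ) * (opt T (List.ofFn X) : ℝ) <
          costSplay T (List.ofFn X)), law π [] (List.ofFn X) ≤ (1 / 2 : ℝ) ^ m := by
  classical
  refine markov (keys T).toFinset _
    (fun X => 10 * opt T (List.ofFn X) + 2) _ (hK m T hT) ?_
  intro X hX hbad
  by_contra hcon
  push Not at hcon
  refine absurd hbad (not_lt.mpr ?_)
  have hXK : ∀ x ∈ List.ofFn X, x ∈ (keys T).toFinset := by
    intro x hx
    rw [List.mem_ofFn] at hx
    obtain ⟨i, rfl⟩ := hx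
    exact (Fintype.mem_piFinset.mp hX) i
  have hXK' : ∀ x ∈ List.ofFn X, x ∈ keys T := fun x hx => List.mem_toFinset.mp (hXK x hx)
  have hlen : (List.ofFn X).length = m := by simp
  have h1 := log_law (K := (keys T).toFinset) (g := fun h x => (rd τ x h : ℝ)) h0 hA
    (δ := δ) (fun h x hx => hπ h x (List.mem_toFinset.mp hx)) hXK hcon.le
  rw [gsum_rd, hlen] at h1
  obtain ⟨s, hs1, hs2⟩ := lev_rd hk (List.ofFn X) []
  have h2 : costSplay T (List.ofFn X) ≤ 7 * m + 15 * rsum τ [] (List.ofFn X) := by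
    have := lev_main hT hXK' (by
      intro a _
      have := dep_rd τ a []
      rwa [hτ] at this) hs1
    rw [hs2, hlen] at this
    exact this
  have h3 : m ≤ opt T (List.ofFn X) := by
    have := len_opt T (List.ofFn X); rwa [hlen] at this
  set o : ℝ := (opt T (List.ofFn X) : ℝ) with ho
  have h3' : (m : ℝ) ≤ o := by rw [ho]; exact_mod_cast h3
  have hm' : (1 : ℝ) ≤ m := by exact_mod_cast hm
  have hL : 0 ≤ Real.logb 2 A := Real.logb_nonneg (by norm_num) hA
  push_cast at h1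
  rw [← ho] at h1
  have h2' : (costSplay T (List.ofFn X) : ℝ) ≤ 7 * m + 15 * (rsum τ [] (List.ofFn X) : ℝ) := by
    exact_mod_cast h2
  rw [div_mul_eq_mul_div, le_div_iff₀ hδ]
  have h4 : δ * (rsum τ [] (List.ofFn X) : ℝ) ≤ 13 * o + o * Real.logb 2 A := by
    have : (m : ℝ) * Real.logb 2 A ≤ o * Real.logb 2 A := mul_le_mul_of_nonneg_right h3' hL
    linarith
  have h5 : (costSplay T (List.ofFn X) : ℝ) * δ ≤
      (7 * m + 15 * (rsum τ [] (List.ofFn X) : ℝ)) * δ :=
    mul_le_mul_of_nonneg_right h2' hδ.le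
  have h6 : (7 * (m : ℝ)) * δ ≤ 7 * o := by
    calc (7 * (m : ℝ)) * δ ≤ (7 * (m : ℝ)) * 1 :=
          mul_le_mul_of_nonneg_left hδ1 (by positivity)
      _ ≤ _ := by linarith
  nlinarith

end Pool.Agent.Y395.SP
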