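import Pool.Agent.Y395.SP.UpCnt
import Pool.Agent.Y540.SP.VEX
import Pool.Agent.Y431.SP.PERM
import Pool.Agent.Y484.SP.RUN
import Pool.Agent.Y625.SP.LEV
import Pool.Agent.Y756.SP.Exc
import Pool.Agent.Y310.SP.SMO

set_option autoImplicit false

/-! Typical, relabelled and smoothed request sequences: assembly. -/

namespace Pool.Agent.Y395.SP

open Pool.Agent.H581R2.Splay Pool.Agent.TH49.Spl

theorem relabelling_holds : SRelab :=
  Pool.Agent.Y484.SP.RUN.main Pool.Agent.Y540.SP.main Pool.Agent.Y431.SP.PERM.main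

theorem level_holds : SLevel := Pool.Agent.Y625.SPL.main upper_holds count_holds

theorem exc_holds : SExc := Pool.Agent.Y756.SP.main upper_holds count_holds

theorem smooth_holds : SSmooth := Pool.Agent.Y310.SP.SMO.main upper_holds

/-- For a bijective relabelling, the relabelled sequences are all sequences. -/
theorem recode_bij (σ : List ℕ → Equiv.Perm ℕ) (K : Finset ℕ) (hσ : ∀ h x, x ∈ K ↔ σ h x ∈ K) :
    ∀ (Y : List ℕ) (h : List ℕ), (∀ y ∈ Y, y ∈ K) →
      ∃! X : List ℕ, (∀ x ∈ X, x ∈ K) ∧ recode σ h X = Y := by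
  intro Y
  induction Y with
  | nil =>
    intro h _
    refine ⟨[], ⟨by simp, rfl⟩, ?_⟩
    rintro X ⟨-, hX⟩
    cases X with
    | nil => rfl
    | cons x X => simp [recode] at hX
  | cons y Y ih =>
    intro h hY
    have hx : (σ h).symm y ∈ K := by
      rw [hσ h]; simpa using hY y (by simp)
    obtain ⟨X, ⟨hX1, hX2⟩, hX3⟩ := ih ((σ h).symm y :: h) (fun z hz => hY z (by simp [hz]))
    refine ⟨(σ h).symm y :: X, ⟨?_, ?_⟩, ?_⟩
    · intro z hz
      rcases List.mem_cons.1 hz with rfl | hz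
      · exact hx
      · exact hX1 z hz
    · simp only [recode, Equiv.apply_symm_apply, hX2]
    · rintro Z ⟨hZ1, hZ2⟩
      cases Z with
      | nil => simp [recode] at hZ2
      | cons z Z =>
        simp only [recode, List.cons.injEq] at hZ2
        obtain ⟨h1, h2⟩ := hZ2
        have hz : z = (σ h).symm y := by rw [← h1]; simp
        subst hz
        rw [hX3 Z ⟨fun w hw => hZ1 w (by simp [hw]), h2⟩]

theorem recode_len (σ : List ℕ → Equiv.Perm ℕ) (X : List ℕ) :
    ∀ h, (recode σ h X).length = X.length := by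
  induction X with
  | nil => intro h; rfl
  | cons x X ih => intro h; simp [recode, ih]

end Pool.Agent.Y395.SP

namespace Pool.Agent.Y395.SP

open Pool.Agent.H581R2.Splay Pool.Agent.TH49.Spl

theorem ofFn_getD {m : ℕ} (L : List ℕ) (h : L.length = m) :
    List.ofFn (fun i : Fin m => L.getD i 0) = L := by
  subst h
  refine List.ext_getElem (by simp) fun i h1 h2 => ?_
  simp [List.getD_eq_getElem?_getD, h2]

theorem seqs_mem {K : Finset ℕ} {m : ℕ} {X : Fin m → ℕ} :
    X ∈ seqs K m ↔ ∀ x ∈ List.ofFn X, x ∈ K := by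
  simp [seqs, Fintype.mem_piFinset]

open scoped Classical in
/-- The numbers of sequences of small cost. -/
theorem equi {T : Tr} {σ : List ℕ → Equiv.Perm ℕ} (hσ : ∀ h x, x ∈ keys T ↔ σ h x ∈ keys T)
    {D : ℝ} (hc : ∀ X : List ℕ, (∀ x ∈ X, x ∈ keys T) →
      (costSplay T (recode σ [] X) : ℝ) ≤ 74 * (optAny (keys T) X : ℝ) + D) (m : ℕ) (B : ℝ) :
    ((seqs (keys T).toFinset m).filter
        (fun X => (optAny (keys T) (List.ofFn X) : ℝ) ≤ B)).card ≤
      ((seqs (keys T).toFinset m).filter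
        (fun X => (costSplay T (List.ofFn X) : ℝ) ≤ 74 * B + D)).card := by
  have hσ' : ∀ h x, x ∈ (keys T).toFinset ↔ σ h x ∈ (keys T).toFinset := fun h x => by
    simp only [List.mem_toFinset]; exact hσ h x
  have hmem : ∀ (X : List ℕ) (h : List ℕ), (∀ x ∈ X, x ∈ (keys T).toFinset) →
      ∀ y ∈ recode σ h X, y ∈ (keys T).toFinset := by
    intro X
    induction X with
    | nil => intro h _ y hy; simp [recode] at hy
    | cons x X ih =>
      intro h hX y hy
      simp only [recode, List.mem_cons] at hy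
      rcases hy with rfl | hy
      · exact (hσ' h x).1 (hX x (by simp))
      · exact ih _ (fun z hz => hX z (by simp [hz])) y hy
  set f : (Fin m → ℕ) → (Fin m → ℕ) := fun X i => (recode σ [] (List.ofFn X)).getD i 0 with hf
  have hfl : ∀ X, List.ofFn (f X) = recode σ [] (List.ofFn X) := fun X =>
    ofFn_getD _ (by rw [recode_len]; simp)
  refine Finset.card_le_card_of_injOn f ?_ ?_
  · intro X hX
    rw [Finset.mem_coe, Finset.mem_filter] at hX
    rw [Finset.mem_coe, Finset.mem_filter, seqs_mem, hfl]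
    have h1 := seqs_mem.1 hX.1
    refine ⟨hmem _ _ h1, ?_⟩
    have h2 := hc (List.ofFn X) (fun x hx => List.mem_toFinset.1 (h1 x hx))
    linarith [hX.2]
  · intro X hX Z hZ hXZ
    rw [Finset.mem_coe, Finset.mem_filter] at hX hZ
    have h1 := seqs_mem.1 hX.1
    have h2 := seqs_mem.1 hZ.1
    have h3 : recode σ [] (List.ofFn X) = recode σ [] (List.ofFn Z) := by
      rw [← hfl, ← hfl, hXZ]
    obtain ⟨W, -, hW⟩ := recode_bij σ _ hσ' (recode σ [] (List.ofFn Z)) [] (hmem _ _ h2)
    have h4 := hW _ ⟨h1, h3⟩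
    have h5 := hW _ ⟨h2, rfl⟩
    exact List.ofFn_injective (h4.trans h5.symm)

end Pool.Agent.Y395.SP
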