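import Pool.Agent.Y395.SP.Reinf

set_option autoImplicit false

/-! Probabilities of events for random request sequences. -/

namespace Pool.Agent.Y395.SP

open Pool.Agent.H581R2.Splay Pool.Agent.TH49.Spl Pool.Agent.Y578.Spl Tr

open scoped Classical in
/-- `prob K π m P`: the probability that the sequence `X` of the first `m` requests, all of them in
`K`, has the property `P`, when `π h x` is the conditional probability of the request `x` after the
requests `h` (the most recent one first). -/
noncomputable def prob (K : Finset ℕ) (π : List ℕ → ℕ → ℝ) (m : ℕ) (P : List ℕ → Prop) : ℝ :=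
  ∑ X ∈ (seqs K m).filter (fun X => P (List.ofFn X)), law π [] (List.ofFn X)

theorem sum_law {K : Finset ℕ} {π : List ℕ → ℕ → ℝ} (h1 : ∀ h, ∑ x ∈ K, π h x = 1) :
    ∀ (m : ℕ) (h : List ℕ), ∑ X ∈ seqs K m, law π h (List.ofFn X) = 1 := by
  intro m
  induction m with
  | zero =>
    intro h
    have : seqs K 0 = {Fin.elim0} := by
      ext X
      simp only [seqs, Fintype.mem_piFinset, Finset.mem_singleton]
      exact ⟨fun _ => funext fun i => i.elim0, fun _ i => i.elim0⟩
    rw [this, Finset.sum_singleton]
    simp [law]
  | succ m ih =>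
    intro h
    have : ∑ X ∈ seqs K (m + 1), law π h (List.ofFn X) =
        ∑ p ∈ K ×ˢ seqs K m, π h p.1 * law π (p.1 :: h) (List.ofFn p.2) := by
      refine Finset.sum_nbij' (fun X => (X 0, Fin.tail X)) (fun p => Fin.cons p.1 p.2) ?_ ?_ ?_ ?_ ?_
      · intro X hX
        simp only [seqs, Fintype.mem_piFinset] at hX
        simp only [Finset.mem_product, seqs, Fintype.mem_piFinset]
        exact ⟨hX 0, fun i => hX i.succ⟩
      · intro p hp
        simp only [Finset.mem_product, seqs, Fintype.mem_piFinset] at hp
        simp only [seqs, Fintype.mem_piFinset]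
        intro i
        refine Fin.cases ?_ (fun j => ?_) i
        · simpa using hp.1
        · simpa using hp.2 j
      · intro X _; exact Fin.cons_self_tail X
      · intro p _; simp
      · intro X _
        rw [List.ofFn_succ]
        simp only [law]
        rfl
    rw [this, Finset.sum_product]
    calc _ = ∑ x ∈ K, π h x := by
          refine Finset.sum_congr rfl fun x _ => ?_
          show ∑ y ∈ seqs K m, π h x * law π (x :: h) (List.ofFn y) = π h x
          rw [← Finset.mul_sum, ih, mul_one]
      _ = 1 := h1 h

/-- the complementary event -/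
theorem prob_compl {K : Finset ℕ} {π : List ℕ → ℕ → ℝ} (h1 : ∀ h, ∑ x ∈ K, π h x = 1) {m : ℕ}
    {P : List ℕ → Prop} {ε : ℝ} (h : prob K π m (fun X => ¬ P X) ≤ ε) : 1 - ε ≤ prob K π m P := by
  classical
  have h2 : prob K π m P + prob K π m (fun X => ¬ P X) = 1 := by
    unfold prob
    rw [← sum_law h1 m []]
    convert Finset.sum_filter_add_sum_filter_not (seqs K m) (fun X => P (List.ofFn X))
      (fun X => law π [] (List.ofFn X))
  linarith

end Pool.Agent.Y395.SP
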