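import Pool.Agent.Y395.SP.Fin

set_option autoImplicit false

/-! Weight balanced trees; sources whose conditional probabilities increase only at requests. -/

namespace Pool.Agent.Y395.SP

open Pool.Agent.H581R2.Splay Pool.Agent.TH49.Spl Pool.Agent.Y578.Spl Tr

/-- a sorted list is split at a median of the weights -/
theorem median_split (p : ℕ → ℝ) : ∀ (K : List ℕ) (u : ℝ), 0 ≤ u →
    K ≠ [] → u ≤ (K.map p).sum →
    ∃ (L : List ℕ) (a : ℕ) (R : List ℕ), K = L ++ a :: R ∧ (L.map p).sum ≤ u ∧
      (R.map p).sum ≤ (K.map p).sum - u := by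
  intro K
  induction K with
  | nil => intro u _ h; exact absurd rfl h
  | cons a K ih =>
    intro u hu _ hK
    by_cases h : u ≤ p a
    · refine ⟨[], a, K, rfl, by simpa using hu, ?_⟩
      simp only [List.map_cons, List.sum_cons]; linarith
    · push Not at h
      have hne : K ≠ [] := by
        rintro rfl
        simp only [List.map_cons, List.map_nil, List.sum_cons, List.sum_nil] at hK
        linarith
      simp only [List.map_cons, List.sum_cons] at hK
      obtain ⟨L, b, R, h1, h2, h3⟩ := ih (u - p a) (by linarith) hne (by linarith)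
      refine ⟨a :: L, b, R, by rw [h1]; rfl, ?_, ?_⟩
      · simp only [List.map_cons, List.sum_cons]; linarith
      · simp only [List.map_cons, List.sum_cons]; linarith

/-- weight balanced trees -/
theorem wbt (p : ℕ → ℝ) (hp : ∀ a, 0 ≤ p a) : ∀ (n : ℕ) (K : List ℕ), K.length = n →
    K.Pairwise (· < ·) → ∃ t : Tr, keys t = K ∧
      ∀ a ∈ K, p a * 2 ^ dep a t ≤ (K.map p).sum := by
  intro n
  induction n using Nat.strong_induction_on with
  | _ n ih =>
    intro K hKn hK
    by_cases hne : K = []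
    · subst hne
      exact ⟨nil, rfl, by simp⟩
    have hnn : ∀ L : List ℕ, 0 ≤ (L.map p).sum := fun L =>
      List.sum_nonneg (by
        intro y hy
        rw [List.mem_map] at hy
        obtain ⟨a, _, rfl⟩ := hy
        exact hp a)
    obtain ⟨L, a, R, h1, h2, h3⟩ := median_split p K ((K.map p).sum / 2)
      (by have := hnn K; linarith) hne (by have := hnn K; linarith)
    subst h1
    rw [List.pairwise_append, List.pairwise_cons] at hK
    obtain ⟨hL, ⟨haR, hR⟩, hLR⟩ := hK
    simp only [List.length_append, List.length_cons] at hKn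
    obtain ⟨tl, l1, l2⟩ := ih L.length (by omega) L rfl hL
    obtain ⟨tr, r1, r2⟩ := ih R.length (by omega) R rfl hR
    refine ⟨node a tl tr, by simp [keys, l1, r1], ?_⟩
    intro b hb
    rw [List.mem_append, List.mem_cons] at hb
    rcases hb with hb | rfl | hb
    · have hba : b < a := hLR b hb a (by simp)
      have : dep b (node a tl tr) = dep b tl + 1 := by
        simp only [dep]; rw [if_neg (by omega), if_pos hba]
      rw [this, pow_succ]
      have := l2 b hb
      nlinarith
    · have : dep b (node b tl tr) = 0 := by simp [dep]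
      rw [this, pow_zero, mul_one]
      simp only [List.map_append, List.map_cons, List.sum_append, List.sum_cons]
      have := hnn L; have := hnn R
      linarith
    · have hba : a < b := haR b hb
      have : dep b (node a tl tr) = dep b tr + 1 := by
        simp only [dep]; rw [if_neg (by omega), if_neg (by omega)]
      rw [this, pow_succ]
      have := r2 b hb
      nlinarith

/-- splaying from any initial tree against reference trees -/
theorem cost_any {S T0 : Tr} (hS : IsBST S) (hk : keys T0 = keys S) {D : ℕ → ℕ} {X s : List ℕ}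
    (hX : ∀ x ∈ X, x ∈ keys S) (h0 : ∀ a ∈ keys S, dep a T0 ≤ D a)
    (h : Lev (keys S) D X s) :
    (costSplay S X : ℝ) ≤ (s.map fun d : ℕ => (28 / 5 + 12 * (d : ℝ))).sum +
      4 * ((keys S).map fun a => ((dep a T0 : ℝ) + 1)).sum := by
  have hT0 : IsBST T0 := by unfold IsBST; rw [hk]; exact hS
  have hkr : ((keys S).map fun a => (1 / 16 : ℝ) ^ (dep a T0 + 1)).sum ≤ 1 / 14 := by
    rw [← hk]; exact kraft16 T0 hT0
  have hm := lev_pot (d0 := fun a => dep a T0) hS hkr h ∅ S hS (List.Sublist.refl _) hX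
    (fun a _ ha => h0 a ha)
  set w0 : ℕ → ℝ := fun a => (1 / 16 : ℝ) ^ (dep a T0 + 1) with hw0
  have hw : ∀ a, 0 < w0 a := fun a => by simp only [hw0]; positivity
  have e1 : w16 (fun a => dep a T0) D ∅ X = w0 := by
    funext a
    simp [w16, hw0]
  rw [e1] at hm
  have hwt : wt w0 S ≤ 1 := by rw [wt_eq]; linarith
  have hup : psi w0 S ≤ 0 := by
    cases hSc : S with
    | nil => simp [psi]
    | node a l r =>
      rw [hSc] at hwt
      simp only [wt] at hwt
      have h1 := wt_nonneg hw l
      have h2 := wt_nonneg hw r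
      have h3 := hw a
      simp only [psi]
      have := pot_nonpos hw l (by linarith)
      have := pot_nonpos hw r (by linarith)
      linarith
  have hlow : ∀ t : Tr, -(4 * ((keys t).map fun a => ((dep a T0 : ℝ) + 1)).sum) ≤ psi w0 t := by
    intro t
    have hp : ∀ u : Tr, -(4 * ((keys u).map fun a => ((dep a T0 : ℝ) + 1)).sum) ≤ pot w0 u := by
      intro u
      refine le_trans (le_of_eq ?_) (pot_lower hw u)
      rw [← neg_mul, ← List.sum_map_mul_left]
      congr 1
      refine List.map_congr_left fun a _ => ?_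
      simp only [hw0, logb_16]
      ring
    cases t with
    | nil => simp [psi, keys]
    | node a l r =>
      simp only [psi, keys, List.map_append, List.map_cons, List.sum_append, List.sum_cons]
      have h1 := hp l
      have h2 := hp r
      have h3 : (0 : ℝ) ≤ (dep a T0 : ℝ) + 1 := by positivity
      linarith
  have h4 := hlow (runS S X)
  rw [runS_keys X S hS hX] at h4
  linarith

theorem lev_rd' {K : List ℕ} {τ : List ℕ → Tr} (hk : ∀ h, keys (τ h) = K) (X : List ℕ) :
    ∀ h, ∃ s, Lev K (fun a => rd τ a h) X s ∧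
      (s.map fun d : ℕ => (28 / 5 + 12 * (d : ℝ))).sum = 28 / 5 * X.length + 12 * rsum τ h X := by
  induction X with
  | nil => intro h; exact ⟨[], Lev.nil _, by simp [rsum]⟩
  | cons x X ih =>
    intro h
    obtain ⟨s, h1, h2⟩ := ih (x :: h)
    refine ⟨rd τ x h :: s, ?_, ?_⟩
    · exact Lev.cons _ (fun a => rd τ a (x :: h)) (τ h) x X s (hk h) (fun a _ => dep_rd τ a h)
        (fun a ha => rd_mono τ ha h) h1
    · simp only [List.map_cons, List.sum_cons, h2, rsum, List.length_cons]; push_cast; ring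

theorem rd_eq (τ : List ℕ → Tr) (x : ℕ) : ∀ h : List ℕ, ∃ L h', h = L ++ h' ∧ x ∉ L ∧
    rd τ x h = dep x (τ h') := by
  intro h
  induction h with
  | nil => exact ⟨[], [], rfl, by simp, rfl⟩
  | cons y h ih =>
    by_cases hy : y = x
    · refine ⟨[], y :: h, rfl, by simp, ?_⟩
      simp only [rd]; rw [if_pos hy]
    · obtain ⟨L, h', h1, h2, h3⟩ := ih
      by_cases hc : rd τ x h ≤ dep x (τ (y :: h))
      · refine ⟨[], y :: h, rfl, by simp, ?_⟩
        simp only [rd]; rw [if_neg hy, max_eq_left hc]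
      · push Not at hc
        refine ⟨y :: L, h', by rw [h1]; rfl, ?_, ?_⟩
        · rw [List.mem_cons, not_or]; exact ⟨fun h => hy h.symm, h2⟩
        · simp only [rd]; rw [if_neg hy, max_eq_right hc.le, h3]

/-- reference trees, any initial tree -/
theorem ref_any (hK : SKraft2) (T : Tr) (hT : IsBST T) (hn : T ≠ Tr.nil)
    (π : List ℕ → ℕ → ℝ) (h0 : ∀ h x, 0 ≤ π h x) (A δ : ℝ) (hA : 1 ≤ A) (hδ : 0 < δ) (hδ1 : δ ≤ 1)
    (τ : List ℕ → Tr) (hk : ∀ h, keys (τ h) = keys T)
    (hd : ∀ a ∈ keys T, (dep a (τ []) : ℝ) ≤ Real.logb 2 (2 * (keys T).length))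
    (hπ : ∀ h, ∀ x ∈ keys T, π h x ≤ A * (2 : ℝ) ^ (-(δ * rd τ x h))) (m : ℕ) :
    ∑ X ∈ (seqs (keys T).toFinset m).filter (fun X =>
      ((138 + 12 * Real.logb 2 A) * (optAny (keys T) (List.ofFn X) : ℝ) +
        68 * ((keys T).length * Real.logb 2 (2 * (keys T).length))) / δ <
          costSplay T (List.ofFn X)), law π [] (List.ofFn X) ≤ (1 / 2 : ℝ) ^ m := by
  classical
  refine markov (keys T).toFinset _
    (fun X => 10 * optAny (keys T) (List.ofFn X) + 2 * (keys T).length + 3) _ (hK m (keys T) hT) ?_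
  intro X hX hbad
  by_contra hcon
  push Not at hcon
  refine absurd hbad (not_lt.mpr ?_)
  have hXK : ∀ x ∈ List.ofFn X, x ∈ (keys T).toFinset := by
    intro x hx
    rw [List.mem_ofFn] at hx
    obtain ⟨i, rfl⟩ := hx
    exact (Fintype.mem_piFinset.mp hX) i
  have hXK' : ∀ x ∈ List.ofFn X, x ∈ keys T := fun x hx => List.mem_toFinset.mp (hXK x hx)
  have hlen : (List.ofFn X).length = m := by simp
  have h1 := log_law (K := (keys T).toFinset) (g := fun h x => (rd τ x h : ℝ)) h0 hA
    (δ := δ) (fun h x hx => hπ h x (List.mem_toFinset.mp hx)) hXK hcon.le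
  rw [gsum_rd, hlen] at h1
  obtain ⟨s, hs1, hs2⟩ := lev_rd' hk (List.ofFn X) []
  have h2 := cost_any (T0 := τ []) hT (hk []) hXK' (fun a _ => dep_rd τ a []) hs1
  rw [hs2, hlen] at h2
  have h3 : m ≤ optAny (keys T) (List.ofFn X) := by
    have := len_optAny (T := T) (List.ofFn X); rwa [hlen] at this
  set o : ℝ := (optAny (keys T) (List.ofFn X) : ℝ) with ho
  have h3' : (m : ℝ) ≤ o := by rw [ho]; exact_mod_cast h3
  have hL : 0 ≤ Real.logb 2 A := Real.logb_nonneg (by norm_num) hA
  push_cast at h1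
  rw [← ho] at h1
  set n : ℝ := ((keys T).length : ℝ) with hnn
  have hn1 : (1 : ℝ) ≤ n := by
    rw [hnn]
    have : 1 ≤ (keys T).length := by
      cases hTc : T with
      | nil => exact absurd hTc hn
      | node a l r => simp only [keys, List.length_append, List.length_cons]; omega
    exact_mod_cast this
  set lg : ℝ := Real.logb 2 (2 * n) with hlgd
  have hlg1 : 1 ≤ lg := by
    rw [hlgd, Real.logb_mul (by norm_num) (by linarith), Real.logb_self_eq_one (by norm_num)]
    have := Real.logb_nonneg (b := 2) (by norm_num) hn1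
    linarith
  have h7 : ((keys T).map fun a => ((dep a (τ []) : ℝ) + 1)).sum ≤ n * (lg + 1) := by
    have : ((keys T).map fun a => ((dep a (τ []) : ℝ) + 1)).sum ≤
        ((keys T).map fun _ => (lg + 1)).sum :=
      List.sum_le_sum fun a ha => by have := hd a ha; linarith
    refine this.trans (le_of_eq ?_)
    simp only [List.map_const', List.sum_replicate, nsmul_eq_mul, hnn]
  have hnl : n ≤ n * lg := by nlinarith
  rw [le_div_iff₀ hδ]
  have h4 : δ * (rsum τ [] (List.ofFn X) : ℝ) ≤ 11 * o + 2 * n + 3 + o * Real.logb 2 A := by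
    have : (m : ℝ) * Real.logb 2 A ≤ o * Real.logb 2 A := mul_le_mul_of_nonneg_right h3' hL
    linarith
  have h5 : (costSplay T (List.ofFn X) : ℝ) * δ ≤
      (28 / 5 * m + 12 * (rsum τ [] (List.ofFn X) : ℝ) + 4 * (n * (lg + 1))) * δ :=
    mul_le_mul_of_nonneg_right (by linarith) hδ.le
  have h6 : (28 / 5 * (m : ℝ) + 4 * (n * (lg + 1))) * δ ≤ 28 / 5 * o + 4 * (n * (lg + 1)) := by
    have hq : 0 ≤ 28 / 5 * (m : ℝ) + 4 * (n * (lg + 1)) := by
      have : 0 ≤ n * (lg + 1) := mul_nonneg (by linarith) (by linarith)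
      positivity
    calc (28 / 5 * (m : ℝ) + 4 * (n * (lg + 1))) * δ ≤ (28 / 5 * (m : ℝ) + 4 * (n * (lg + 1))) * 1 :=
          mul_le_mul_of_nonneg_left hδ1 hq
      _ ≤ _ := by linarith
  nlinarith

theorem half_sum (f : ℕ → ℝ) (c : ℝ) (K : List ℕ) :
    (K.map fun a => (f a + c) / 2).sum = ((K.map f).sum + K.length * c) / 2 := by
  induction K with
  | nil => simp
  | cons a K ih =>
    simp only [List.map_cons, List.sum_cons, List.length_cons, ih]; push_cast; ring

/-- Part 3: sources whose conditional probabilities increase (essentially) only at requests. -/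
theorem part3 (hK : SKraft2) (T : Tr) (hT : IsBST T) (hn : T ≠ Tr.nil)
    (π : List ℕ → ℕ → ℝ) (h0 : ∀ h x, 0 ≤ π h x) (h1 : ∀ h, ∑ x ∈ (keys T).toFinset, π h x = 1)
    (A δ : ℝ) (hA : 1 ≤ A) (hδ : 0 < δ) (hδ1 : δ ≤ 1)
    (hπ : ∀ (h L : List ℕ), ∀ x ∈ keys T, x ∉ L → π (L ++ h) x ≤ A * (π h x) ^ δ) (m : ℕ) :
    ∑ X ∈ (seqs (keys T).toFinset m).filter (fun X =>
      ((150 + 12 * Real.logb 2 A) * (optAny (keys T) (List.ofFn X) : ℝ) +
        68 * ((keys T).length * Real.logb 2 (2 * (keys T).length))) / δ <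
          costSplay T (List.ofFn X)), law π [] (List.ofFn X) ≤ (1 / 2 : ℝ) ^ m := by
  classical
  have hn1 : 1 ≤ (keys T).length := by
    cases hTc : T with
    | nil => exact absurd hTc hn
    | node a l r => simp only [keys, List.length_append, List.length_cons]; omega
  have hn1' : (1 : ℝ) ≤ (keys T).length := by exact_mod_cast hn1
  -- the reference trees
  have hex : ∀ h : List ℕ, ∃ t : Tr, keys t = keys T ∧
      ∀ a ∈ keys T, ((π h a + 1 / ((keys T).length : ℝ)) / 2) * 2 ^ dep a t ≤ 1 := by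
    intro h
    obtain ⟨t, t1, t2⟩ := wbt (fun a => (π h a + 1 / ((keys T).length : ℝ)) / 2)
      (fun a => by have := h0 h a; positivity) _ (keys T) rfl hT
    refine ⟨t, t1, fun a ha => (t2 a ha).trans (le_of_eq ?_)⟩
    have hnd : (keys T).Nodup := hT.imp (fun h => ne_of_lt h)
    have e1 : ((keys T).map (π h)).sum = 1 := by
      rw [← h1 h, List.sum_toFinset _ hnd]
    rw [half_sum, e1, mul_one_div_cancel (by linarith)]
    norm_num
  choose τ hτ1 hτ2 using hex
  have hd : ∀ a ∈ keys T, (dep a (τ []) : ℝ) ≤ Real.logb 2 (2 * (keys T).length) := by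
    intro a ha
    have h2 := hτ2 [] a ha
    have h3 := h0 [] a
    rw [Real.le_logb_iff_rpow_le (by norm_num) (by positivity), Real.rpow_natCast]
    have h4 : (1 / ((keys T).length : ℝ)) / 2 * 2 ^ dep a (τ []) ≤ 1 := by
      refine le_trans (mul_le_mul_of_nonneg_right ?_ (by positivity)) h2
      linarith
    have h5 : (2 : ℝ) ^ dep a (τ []) = 2 * (keys T).length *
        ((1 / ((keys T).length : ℝ)) / 2 * 2 ^ dep a (τ [])) := by
      field_simp
    rw [h5]
    calc _ ≤ 2 * ((keys T).length : ℝ) * 1 := mul_le_mul_of_nonneg_left h4 (by positivity)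
      _ = _ := mul_one _
  have hp : ∀ h, ∀ x ∈ keys T, π h x ≤ 2 * (2 : ℝ) ^ (-(dep x (τ h) : ℝ)) := by
    intro h x hx
    have h2 := hτ2 h x hx
    have h3 : π h x / 2 * 2 ^ dep x (τ h) ≤ 1 := by
      refine le_trans (mul_le_mul_of_nonneg_right ?_ (by positivity)) h2
      have : (0 : ℝ) ≤ 1 / ((keys T).length : ℝ) := by positivity
      linarith
    rw [Real.rpow_neg (by norm_num), Real.rpow_natCast]
    rw [← div_eq_mul_inv, le_div_iff₀ (by positivity)]
    linarith
  have hπ' : ∀ h, ∀ x ∈ keys T, π h x ≤ (2 * A) * (2 : ℝ) ^ (-(δ * rd τ x h)) := by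
    intro h x hx
    obtain ⟨L, h', e1, e2, e3⟩ := rd_eq τ x h
    have h2 := hπ h' L x hx e2
    rw [← e1] at h2
    rw [e3]
    refine h2.trans ?_
    have h3 : (π h' x) ^ δ ≤ (2 * (2 : ℝ) ^ (-(dep x (τ h') : ℝ))) ^ δ :=
      Real.rpow_le_rpow (h0 _ _) (hp h' x hx) hδ.le
    rw [Real.mul_rpow (by norm_num) (by positivity), ← Real.rpow_mul (by norm_num)] at h3
    have h4 : (2 : ℝ) ^ δ ≤ 2 := by
      calc (2 : ℝ) ^ δ ≤ (2 : ℝ) ^ (1 : ℝ) := Real.rpow_le_rpow_of_exponent_le (by norm_num) hδ1
        _ = 2 := by norm_num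
    have h5 : -(dep x (τ h') : ℝ) * δ = -(δ * dep x (τ h')) := by ring
    rw [h5] at h3
    calc A * (π h' x) ^ δ ≤ A * ((2 : ℝ) ^ δ * (2 : ℝ) ^ (-(δ * (dep x (τ h') : ℝ)))) :=
          mul_le_mul_of_nonneg_left h3 (by linarith)
      _ ≤ A * (2 * (2 : ℝ) ^ (-(δ * (dep x (τ h') : ℝ)))) := by
          refine mul_le_mul_of_nonneg_left ?_ (by linarith)
          exact mul_le_mul_of_nonneg_right h4 (by positivity)
      _ = _ := by ring
  have h2A : Real.logb 2 (2 * A) = 1 + Real.logb 2 A := by
    rw [Real.logb_mul (by norm_num) (by linarith), Real.logb_self_eq_one (by norm_num)]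
  have key := ref_any hK T hT hn π h0 (2 * A) δ (by linarith) hδ hδ1 τ hτ1 hd hπ' m
  rw [h2A] at key
  convert key using 6
  ring_nf

end Pool.Agent.Y395.SP
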