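import Pool.Agent.Y395.SP.Prob

set_option autoImplicit false

/-! Typical, relabelled and smoothed request sequences: statements. -/

namespace Pool.Agent.Y395.SP

open Pool.Agent.H581R2.Splay Pool.Agent.TH49.Spl

/-- The relabelled requests: the request `x` after the history `h` (the most recent request first)
is replaced by `σ h x`. -/
def recode (σ : List ℕ → Equiv.Perm ℕ) : List ℕ → List ℕ → List ℕ
  | _, [] => []
  | h, x :: X => σ h x :: recode σ (x :: h) X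

/-- S2-V: a superharmonic function on histories dominating `2^(-c - length - 1)` -/
def SVex : Prop := ∀ (K : Finset ℕ) (c : List ℕ → ℕ),
  (∀ m, ∑ X ∈ seqs K m, (1 / 2 : ℝ) ^ (c (List.ofFn X)) ≤ 1) →
  ∃ V : List ℕ → ℝ, V [] ≤ 1 ∧
    (∀ h, (∀ y ∈ h, y ∈ K) → ∑ x ∈ K, V (x :: h) ≤ V h) ∧
    (∀ h, (∀ y ∈ h, y ∈ K) → (1 / 2 : ℝ) ^ (c h.reverse + h.length + 1) ≤ V h)

/-- S2-PERM: matching keys of large value with keys of small working set number -/
def SPerm : Prop := ∀ (K : Finset ℕ) (v : ℕ → ℝ) (M : ℝ) (g : List ℕ), (∀ y ∈ g, y ∈ K) →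
  (∀ x ∈ K, 0 < v x) → ∑ x ∈ K, v x ≤ M →
  ∃ σ : Equiv.Perm ℕ, (∀ x, x ∈ K ↔ σ x ∈ K) ∧ ∀ x ∈ K, ((ws g (σ x) : ℝ) + 1) * v x ≤ M

/-- S2-RUN: adaptive relabelling -/
def SRelab : Prop := ∀ T : Tr, IsBST T → T ≠ Tr.nil →
  ∃ σ : List ℕ → Equiv.Perm ℕ, (∀ h x, x ∈ keys T ↔ σ h x ∈ keys T) ∧
    ∀ X : List ℕ, (∀ x ∈ X, x ∈ keys T) →
      (costSplay T (recode σ [] X) : ℝ) ≤ 74 * (optAny (keys T) X : ℝ) +
        36 * ((keys T).length * Real.logb 2 (2 * (keys T).length))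

/-- S2-UP -/
def SUpper : Prop := ∀ (T : Tr) (X : List ℕ) (k : ℕ), IsBST T → T ≠ Tr.nil →
  (∀ x ∈ X, x ∈ keys T) → X.toFinset.card ≤ k → 1 ≤ k →
  (costSplay T X : ℝ) ≤ 8 * X.length + 6 * (X.length * Real.logb 2 k) +
    8 * ((keys T).length * Real.logb 2 (keys T).length)

open scoped Classical in
/-- S2-CNT -/
def SCount : Prop := ∀ (T : Tr), IsBST T → ∀ (m : ℕ) (t : ℝ),
  (((seqs (keys T).toFinset m).filter (fun X =>
    (optAny (keys T) (List.ofFn X) : ℝ) ≤ t)).card : ℝ) ≤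
      (2 : ℝ) ^ (10 * t + 2 * (keys T).length + 3)

open scoped Classical in
/-- S2-LEV -/
def SLevel : Prop := ∀ (T : Tr), IsBST T → T ≠ Tr.nil → ∀ (m B : ℕ),
  (keys T).length * Real.logb 2 (2 * (keys T).length) ≤ m →
  (((seqs (keys T).toFinset m).filter (fun X => costSplay T (List.ofFn X) ≤ B ∧
    120 * optAny (keys T) (List.ofFn X) < costSplay T (List.ofFn X))).card : ℝ) ≤
      (1 / 2 : ℝ) ^ m *
        ((seqs (keys T).toFinset m).filter (fun X => costSplay T (List.ofFn X) ≤ B)).card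

open scoped Classical in
/-- S2-EXC -/
def SExc : Prop := ∀ (T : Tr), IsBST T → T ≠ Tr.nil → ∀ (m : ℕ) (ε : ℝ), 0 < ε → ε ≤ 1 →
  (keys T).length ≤ m →
  (((seqs (keys T).toFinset m).filter (fun X =>
    280 / ε * (optAny (keys T) (List.ofFn X) : ℝ) < costSplay T (List.ofFn X))).card : ℝ) ≤
      (2 * (keys T).length : ℝ) ^ (ε * m)

open scoped Classical in
/-- S2-SMO: each request is, with conditional probability at least `ε`, one of those whose
conditional probability is at most `A n^(-δ)` -/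
def SSmooth : Prop := ∀ (T : Tr), IsBST T → T ≠ Tr.nil → ∀ (π : List ℕ → ℕ → ℝ),
  (∀ h x, 0 ≤ π h x) → (∀ h, ∑ x ∈ (keys T).toFinset, π h x = 1) →
  ∀ (A δ ε : ℝ), 1 ≤ A → 0 < δ → δ ≤ 1 → 0 < ε → ε ≤ 1 →
  (∀ h, ε ≤ ∑ x ∈ (keys T).toFinset.filter
    (fun x => π h x ≤ A * ((keys T).length : ℝ) ^ (-δ)), π h x) →
  ∀ m : ℕ, 1 - (1 / 2 : ℝ) ^ m - Real.exp (-(ε * m / 4)) ≤
    prob (keys T).toFinset π m (fun X => (costSplay T X : ℝ) ≤
      ((272 + 6 * Real.logb 2 A) * (optAny (keys T) X : ℝ) +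
        120 * ((keys T).length * Real.logb 2 (2 * (keys T).length))) / (ε * δ))

end Pool.Agent.Y395.SP
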