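import Pool.Agent.Y395.SP.Stm2
import Pool.Agent.Y395.SP.Asm

set_option autoImplicit false

/-! Upper bound for splaying by the number of distinct requests; few sequences have small OPT. -/

namespace Pool.Agent.Y395.SP

open Pool.Agent.H581R2.Splay Pool.Agent.TH49.Spl

theorem wsum_le {S : Finset ℕ} {k : ℕ} (hk : S.card ≤ k) (X : List ℕ) :
    ∀ h : List ℕ, (∀ y ∈ h, y ∈ S) → (∀ y ∈ X, y ∈ S) → wsum h X ≤ X.length * Real.logb 2 k := by
  induction X with
  | nil => intro h _ _; simp [wsum]
  | cons x X ih =>
    intro h hh hX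
    have hx : x ∈ S := hX x (by simp)
    have h1 := ih (x :: h) (by
      intro y hy
      rcases List.mem_cons.1 hy with rfl | hy
      · exact hx
      · exact hh y hy) (fun y hy => hX y (by simp [hy]))
    have h2 : ws h x + 1 ≤ k := by
      refine le_trans ?_ hk
      unfold ws
      have hs : insert x ((h.takeWhile fun y => decide (y ≠ x)).toFinset) ⊆ S := by
        intro y hy
        rcases Finset.mem_insert.1 hy with rfl | hy
        · exact hx
        · exact hh y ((List.takeWhile_sublist _).subset (List.mem_toFinset.1 hy))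
      have hn : x ∉ ((h.takeWhile fun y => decide (y ≠ x)).toFinset) := by
        intro hmem
        have := List.mem_takeWhile_imp (List.mem_toFinset.1 hmem)
        simp at this
      have := Finset.card_le_card hs
      rwa [Finset.card_insert_of_notMem hn] at this
    have h3 : Real.logb 2 ((ws h x : ℝ) + 1) ≤ Real.logb 2 k := by
      refine Real.logb_le_logb_of_le (by norm_num) (by positivity) ?_
      exact_mod_cast h2
    simp only [wsum, List.length_cons]
    push_cast
    linarith

theorem upper_holds : SUpper := by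
  intro T X k hT hn hX hk _
  have h1 := ws_holds T X hT hn hX
  have h2 := wsum_le hk X [] (by simp) (fun y hy => List.mem_toFinset.2 hy)
  linarith

theorem count_holds : SCount := by
  classical
  intro T hT m t
  have hk := kraft2_holds m (keys T) hT
  set F := (seqs (keys T).toFinset m).filter (fun X =>
    (optAny (keys T) (List.ofFn X) : ℝ) ≤ t) with hF
  have h1 : ∑ X ∈ F, (1 / 2 : ℝ) ^ (10 * optAny (keys T) (List.ofFn X) + 2 * (keys T).length + 3) ≤ 1 :=
    le_trans (Finset.sum_le_sum_of_subset_of_nonneg (Finset.filter_subset _ _)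
      fun _ _ _ => by positivity) hk
  set u : ℝ := 10 * t + 2 * (keys T).length + 3 with hu
  have h2 : (F.card : ℝ) * (2 : ℝ) ^ (-u) ≤ 1 := by
    refine le_trans ?_ h1
    rw [← nsmul_eq_mul]
    refine Finset.card_nsmul_le_sum _ _ _ fun X hX => ?_
    have hX2 := (Finset.mem_filter.1 hX).2
    rw [one_div, inv_pow, ← Real.rpow_natCast, ← Real.rpow_neg (by norm_num)]
    refine Real.rpow_le_rpow_of_exponent_le (by norm_num) ?_
    push_cast
    rw [hu]
    linarith
  have h3 : (0 : ℝ) < (2 : ℝ) ^ u := by positivity
  calc (F.card : ℝ) = (F.card : ℝ) * (2 : ℝ) ^ (-u) * (2 : ℝ) ^ u := by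
        rw [mul_assoc, ← Real.rpow_add (by norm_num)]; simp
    _ ≤ 1 * (2 : ℝ) ^ u := mul_le_mul_of_nonneg_right h2 h3.le
    _ = _ := one_mul _

end Pool.Agent.Y395.SP
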